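import Mathlib

open Finset

namespace Pool.Agent.TotalDomNG

/-- `S` is a total dominating set of `G`: every vertex is adjacent to some vertex of `S`. -/
def IsTotalDominating {V : Type*} (G : SimpleGraph V) (S : Finset V) : Prop :=
  ∀ v, ∃ u ∈ S, G.Adj v u

/-- The total domination number: the least size of a total dominating set. -/
noncomputable def totalDominationNumber {V : Type*} (G : SimpleGraph V) : ℕ :=
  sInf {k | ∃ S : Finset V, IsTotalDominating G S ∧ S.card = k}

open Classical in
/-- `δ*(G)`, the smaller of the minimum degrees of `G` and of its complement. -/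
noncomputable def deltaStar {V : Type*} [Fintype V] (G : SimpleGraph V) : ℕ :=
  min G.minDegree Gᶜ.minDegree

/-- Point `i` does not lie on the line `{j, j+1, j+3}` of the Fano plane (mod 7). -/
def off (i j : Fin 7) : Prop := i - j ≠ 0 ∧ i - j ≠ 1 ∧ i - j ≠ 3

instance (i j : Fin 7) : Decidable (off i j) := by unfold off; infer_instance

/-- `t` disjoint copies of the bipartite incidence graph of the complement of the Fano plane. -/
def copies (t : ℕ) : SimpleGraph (Fin t × Bool × Fin 7) where
  Adj p q := p.1 = q.1 ∧ ((p.2.1 = false ∧ q.2.1 = true ∧ off p.2.2 q.2.2) ∨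
    (p.2.1 = true ∧ q.2.1 = false ∧ off q.2.2 p.2.2))
  symm := ⟨fun _ _ h => ⟨h.1.symm, by rcases h.2 with h | h <;> tauto⟩⟩
  loopless := ⟨fun _ h => by rcases h.2 with h | h <;> simp_all⟩

instance (t : ℕ) : DecidableRel (copies t).Adj := by
  intro p q
  unfold copies
  infer_instance

lemma off_pair : ∀ a b : Fin 7, ∃ j : Fin 7, ¬ off a j ∧ ¬ off b j := by decide

lemma off_pair' : ∀ a b : Fin 7, ∃ j : Fin 7, ¬ off j a ∧ ¬ off j b := by decide

lemma three_le_of_hit (P : Fin 7 → Fin 7 → Prop)
    (hP : ∀ a b : Fin 7, ∃ j : Fin 7, ¬ P a j ∧ ¬ P b j) (T : Finset (Fin 7))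
    (hT : ∀ j, ∃ i ∈ T, P i j) : 3 ≤ T.card := by
  by_contra hlt
  have h2 : ∃ a b : Fin 7, T ⊆ {a, b} := by
    rcases T.eq_empty_or_nonempty with rfl | ⟨a, ha⟩
    · exact ⟨0, 0, by simp⟩
    · rcases (T.erase a).eq_empty_or_nonempty with h | ⟨b, hb⟩
      · refine ⟨a, a, ?_⟩
        intro x hx
        by_contra hxa
        have : x ∈ T.erase a := Finset.mem_erase.mpr ⟨by simpa using hxa, hx⟩
        rw [h] at this
        simp at this
      · refine ⟨a, b, ?_⟩
        have h3 : ({a, b} : Finset (Fin 7)) ⊆ T := by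
          intro x hx
          simp only [Finset.mem_insert, Finset.mem_singleton] at hx
          rcases hx with rfl | rfl
          · exact ha
          · exact Finset.mem_of_mem_erase hb
        have h4 : ({a, b} : Finset (Fin 7)).card = 2 :=
          Finset.card_pair (Finset.ne_of_mem_erase hb).symm
        rw [← Finset.eq_of_subset_of_card_le h3 (by omega)]
  obtain ⟨a, b, hab⟩ := h2
  obtain ⟨j, hja, hjb⟩ := hP a b
  obtain ⟨i, hi, hij⟩ := hT j
  have := hab hi
  simp only [Finset.mem_insert, Finset.mem_singleton] at this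
  rcases this with rfl | rfl
  · exact hja hij
  · exact hjb hij

lemma card_ge_of_totalDominating (t : ℕ) (S : Finset (Fin t × Bool × Fin 7))
    (hS : IsTotalDominating (copies t) S) : 6 * t ≤ S.card := by
  have h1 : ∀ (a : Fin t) (b : Bool), 3 ≤ (S.filter (fun p => (p.1, p.2.1) = (a, b))).card := by
    intro a b
    have h2 : 3 ≤ ((S.filter (fun p => (p.1, p.2.1) = (a, b))).image (fun p => p.2.2)).card := by
      cases b with
      | false =>
        apply three_le_of_hit (fun i j => off i j) off_pair
        intro j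
        obtain ⟨u, hu, hadj⟩ := hS (a, true, j)
        refine ⟨u.2.2, ?_, ?_⟩
        · apply Finset.mem_image_of_mem
          rw [Finset.mem_filter]
          refine ⟨hu, ?_⟩
          obtain ⟨h3, h4⟩ := hadj
          rcases h4 with h4 | h4
          · simp at h4
          · exact Prod.ext h3.symm h4.2.1
        · obtain ⟨h3, h4⟩ := hadj
          rcases h4 with h4 | h4
          · simp at h4
          · exact h4.2.2
      | true =>
        apply three_le_of_hit (fun i j => off j i) off_pair'
        intro j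
        obtain ⟨u, hu, hadj⟩ := hS (a, false, j)
        refine ⟨u.2.2, ?_, ?_⟩
        · apply Finset.mem_image_of_mem
          rw [Finset.mem_filter]
          refine ⟨hu, ?_⟩
          obtain ⟨h3, h4⟩ := hadj
          rcases h4 with h4 | h4
          · exact Prod.ext h3.symm h4.2.1
          · simp at h4
        · obtain ⟨h3, h4⟩ := hadj
          rcases h4 with h4 | h4
          · exact h4.2.2
          · simp at h4
    exact h2.trans Finset.card_image_le
  have h2 : S.card = ∑ ab : Fin t × Bool, (S.filter (fun p => (p.1, p.2.1) = ab)).card :=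
    Finset.card_eq_sum_card_fiberwise (fun _ _ => Finset.mem_coe.mpr (Finset.mem_univ _))
  rw [h2]
  calc 6 * t = ∑ ab : Fin t × Bool, 3 := by simp; ring
    _ ≤ _ := Finset.sum_le_sum (fun ab _ => h1 ab.1 ab.2)

lemma totalDominationNumber_copies (t : ℕ) : totalDominationNumber (copies t) = 6 * t := by
  apply le_antisymm
  · apply Nat.sInf_le
    refine ⟨(Finset.univ : Finset (Fin t)) ×ˢ ((Finset.univ : Finset Bool) ×ˢ
      ({0, 1, 2} : Finset (Fin 7))), ?_, ?_⟩
    · rintro ⟨a, b, i⟩
      cases b with
      | false =>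
        have : ∀ i : Fin 7, ∃ j ∈ ({0, 1, 2} : Finset (Fin 7)), off i j := by decide
        obtain ⟨j, hj, hij⟩ := this i
        refine ⟨(a, true, j), ?_, rfl, Or.inl ⟨rfl, rfl, hij⟩⟩
        simpa using hj
      | true =>
        have : ∀ i : Fin 7, ∃ j ∈ ({0, 1, 2} : Finset (Fin 7)), off j i := by decide
        obtain ⟨j, hj, hij⟩ := this i
        refine ⟨(a, false, j), ?_, rfl, Or.inr ⟨rfl, rfl, hij⟩⟩
        simpa using hj
    · rw [Finset.card_product, Finset.card_product]
      simp
      ring
  · apply le_csInf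
    · refine ⟨_, Finset.univ, ?_, rfl⟩
      rintro ⟨a, b, i⟩
      cases b with
      | false =>
        have : ∀ i : Fin 7, ∃ j, off i j := by decide
        obtain ⟨j, hij⟩ := this i
        exact ⟨(a, true, j), Finset.mem_univ _, rfl, Or.inl ⟨rfl, rfl, hij⟩⟩
      | true =>
        have : ∀ i : Fin 7, ∃ j, off j i := by decide
        obtain ⟨j, hij⟩ := this i
        exact ⟨(a, false, j), Finset.mem_univ _, rfl, Or.inr ⟨rfl, rfl, hij⟩⟩
    · rintro k ⟨S, hS, rfl⟩
      exact card_ge_of_totalDominating t S hS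

lemma totalDominationNumber_compl_copies (t : ℕ) (ht : 2 ≤ t) :
    totalDominationNumber (copies t)ᶜ = 2 := by
  have hne : (⟨0, by omega⟩ : Fin t) ≠ ⟨1, by omega⟩ := by
    intro h
    have := congrArg Fin.val h
    simp at this
  have hdom : IsTotalDominating (copies t)ᶜ
      ({(⟨0, by omega⟩, false, 0), (⟨1, by omega⟩, false, 0)} :
        Finset (Fin t × Bool × Fin 7)) := by
    intro v
    by_cases hv : v.1 = ⟨0, by omega⟩
    · refine ⟨(⟨1, by omega⟩, false, 0), by simp, ?_⟩
      rw [SimpleGraph.compl_adj]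
      refine ⟨fun h => ?_, fun h => ?_⟩
      · rw [h] at hv; exact hne hv.symm
      · exact hne (hv.symm.trans h.1)
    · refine ⟨(⟨0, by omega⟩, false, 0), by simp, ?_⟩
      rw [SimpleGraph.compl_adj]
      refine ⟨fun h => ?_, fun h => ?_⟩
      · rw [h] at hv; exact hv rfl
      · exact hv h.1
  apply le_antisymm
  · apply Nat.sInf_le
    refine ⟨_, hdom, ?_⟩
    rw [Finset.card_pair]
    intro h
    exact hne (congrArg Prod.fst h)
  · apply le_csInf
    · exact ⟨_, _, hdom, rfl⟩
    · rintro k ⟨S, hS, rfl⟩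
      obtain ⟨u, hu, -⟩ := hS (⟨0, by omega⟩, false, 0)
      obtain ⟨w, hw, hwu⟩ := hS u
      have h1 : ({u, w} : Finset (Fin t × Bool × Fin 7)) ⊆ S := by
        intro x hx
        simp only [Finset.mem_insert, Finset.mem_singleton] at hx
        rcases hx with rfl | rfl
        · exact hu
        · exact hw
      have h2 := Finset.card_le_card h1
      rwa [Finset.card_pair (SimpleGraph.ne_of_adj _ hwu)] at h2

lemma degree_copies (t : ℕ) (v : Fin t × Bool × Fin 7) : (copies t).degree v = 4 := by
  obtain ⟨a, b, i⟩ := v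
  have key : (copies t).neighborFinset (a, b, i) =
      (Finset.univ.filter (fun j : Fin 7 => if b then off j i else off i j)).map
        ⟨fun j => (a, !b, j), fun x y h => by simpa using h⟩ := by
    ext ⟨a', b', j⟩
    rw [SimpleGraph.mem_neighborFinset]
    simp only [Finset.mem_map, Finset.mem_filter, Finset.mem_univ, true_and]
    cases b <;> cases b' <;> simp [copies] <;> tauto
  rw [← SimpleGraph.card_neighborFinset_eq_degree, key, Finset.card_map]
  clear key
  cases b with
  | false => revert i; decide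
  | true => revert i; decide

lemma degree_of_eq (t : ℕ) (H : SimpleGraph (Fin t × Bool × Fin 7)) (hH : H = copies t)
    (v : Fin t × Bool × Fin 7) [Fintype (H.neighborSet v)] : H.degree v = 4 := by
  subst hH
  exact (congrArg (fun i => @SimpleGraph.degree _ (copies t) v i)
    (Subsingleton.elim _ _)).trans (degree_copies t v)

lemma minDegree_of_eq (t : ℕ) (ht : 2 ≤ t) (H : SimpleGraph (Fin t × Bool × Fin 7))
    (hH : H = copies t) (inst : DecidableRel H.Adj) : H.minDegree = 4 := by
  have : Nonempty (Fin t × Bool × Fin 7) := ⟨(⟨0, by omega⟩, false, 0)⟩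
  apply le_antisymm
  · refine (SimpleGraph.minDegree_le_degree _ (⟨0, by omega⟩, false, 0)).trans ?_
    exact (degree_of_eq t H hH _).le
  · apply SimpleGraph.le_minDegree_of_forall_le_degree
    intro v
    exact (degree_of_eq t H hH _).ge

lemma le_minDegree_of_eq_compl (t : ℕ) (ht : 2 ≤ t) (H : SimpleGraph (Fin t × Bool × Fin 7))
    (hH : H = (copies t)ᶜ) (inst : DecidableRel H.Adj) : 4 ≤ H.minDegree := by
  classical
  have : Nonempty (Fin t × Bool × Fin 7) := ⟨(⟨0, by omega⟩, false, 0)⟩
  apply SimpleGraph.le_minDegree_of_forall_le_degree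
  intro v
  subst hH
  have h3 : (copies t)ᶜ.degree v = Fintype.card (Fin t × Bool × Fin 7) - 1 - 4 := by
    rw [← degree_of_eq t (copies t) rfl v]
    exact (congrArg (fun i => @SimpleGraph.degree _ (copies t)ᶜ v i)
      (Subsingleton.elim _ _)).trans (SimpleGraph.degree_compl (copies t) v)
  rw [h3]
  simp only [Fintype.card_prod, Fintype.card_fin, Fintype.card_bool]
  omega

lemma deltaStar_compl_copies (t : ℕ) (ht : 2 ≤ t) : deltaStar (copies t)ᶜ = 4 := by
  unfold deltaStar
  refine le_antisymm ((min_le_right _ _).trans ?_) (le_min ?_ ?_)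
  · exact (minDegree_of_eq t ht _ (compl_compl _) _).le
  · exact le_minDegree_of_eq_compl t ht _ rfl _
  · exact (minDegree_of_eq t ht _ (compl_compl _) _).ge

lemma connected_compl_copies (t : ℕ) (ht : 2 ≤ t) : (copies t)ᶜ.Connected := by
  have hne : (⟨0, by omega⟩ : Fin t) ≠ ⟨1, by omega⟩ := by
    intro h
    have := congrArg Fin.val h
    simp at this
  have : Nonempty (Fin t × Bool × Fin 7) := ⟨(⟨0, by omega⟩, false, 0)⟩
  have hadj : ∀ u v : Fin t × Bool × Fin 7, u.1 ≠ v.1 → (copies t)ᶜ.Adj u v := by
    intro u v huv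
    rw [SimpleGraph.compl_adj]
    exact ⟨fun h => huv (by rw [h]), fun h => huv h.1⟩
  rw [SimpleGraph.connected_iff]
  refine ⟨?_, inferInstance⟩
  intro u v
  by_cases huv : u.1 = v.1
  · obtain ⟨a, ha⟩ : ∃ a : Fin t, a ≠ u.1 := by
      by_cases h : u.1 = ⟨0, by omega⟩
      · exact ⟨⟨1, by omega⟩, by rw [h]; exact hne.symm⟩
      · exact ⟨⟨0, by omega⟩, fun h' => h h'.symm⟩
    have h1 := hadj u (a, false, 0) (fun h => ha h.symm)
    have h2 := hadj (a, false, 0) v (fun h => ha (h.trans huv.symm))
    exact h1.reachable.trans h2.reachable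
  · exact (hadj u v huv).reachable

lemma card_V (t : ℕ) : Fintype.card (Fin t × Bool × Fin 7) = 14 * t := by
  simp only [Fintype.card_prod, Fintype.card_fin, Fintype.card_bool]
  ring

end Pool.Agent.TotalDomNG
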